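import Pool.Agent.PLap94.Final

namespace Pool.Agent.Results.MP_8e7180_an.LargeP

open Pool.Agent.PLap94.Final

/-- On the unit square, the second and third variational Dirichlet eigenvalues of the
`p`-Laplacian differ for every `p ≥ 300`. -/
theorem result (p : ℝ) [Fact (1 < p)] (hp : 300 ≤ p) : eigenvalue 2 p < eigenvalue 3 p :=
  eigenvalue_two_lt_three hp

end Pool.Agent.Results.MP_8e7180_an.LargeP
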