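import Pool.Agent.PL2.Fin

namespace Pool.Agent.Results.MP_8e7180_an.NearTwo

open Pool.Agent.PLap94.Final

/-- On the unit square, the second and third variational Dirichlet eigenvalues of the
`p`-Laplacian differ, by at least `|p - 2|`, for every `p ≠ 2` in a neighbourhood of `2`. -/
theorem result : ∃ δ : ℝ, 0 < δ ∧ ∀ (p : ℝ) [Fact (1 < p)], p ≠ 2 → |p - 2| < δ →
    eigenvalue 2 p < eigenvalue 3 p ∧
      eigenvalue 2 p + ENNReal.ofReal |p - 2| ≤ eigenvalue 3 p := by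
  obtain ⟨δ, hδ, h⟩ := Pool.Agent.PL2.main
  refine ⟨δ, hδ, fun p _ hne hlt => ?_⟩
  rw [eigenvalue_eq, eigenvalue_eq]
  exact ⟨(h p hne hlt).2, (h p hne hlt).1⟩

end Pool.Agent.Results.MP_8e7180_an.NearTwo
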